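import Pool.Agent.P.MP_8a6196_an.Defs

namespace Pool.Agent.P.MP_8a6196_an

open scoped ENNReal

variable {E : Type} [NormedAddCommGroup E] [NormedSpace ℝ E]

/-- admissible families indexed by any finite type give lower bounds for the norm -/
theorem le_fblNorm {ι : Type} [Fintype ι] (f : StrongDual ℝ E → ℝ) (x : ι → StrongDual ℝ E)
    (hx : ∀ v : E, ‖v‖ ≤ 1 → ∑ i, |x i v| ≤ 1) :
    ENNReal.ofReal (∑ i, |f (x i)|) ≤ fblNorm E f := by
  let e := (Fintype.equivFin ι).symm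
  have h1 : ∀ v : E, ‖v‖ ≤ 1 → ∑ i, |(x ∘ e) i v| ≤ 1 := by
    intro v hv
    have := hx v hv
    rwa [← Equiv.sum_comp e (fun i => |x i v|)] at this
  have h2 : ∑ i, |f (x i)| = ∑ i, |f ((x ∘ e) i)| :=
    (Equiv.sum_comp e (fun i => |f (x i)|)).symm
  rw [h2]
  unfold fblNorm
  exact le_iSup_of_le (Fintype.card ι) (le_iSup_of_le (x ∘ e) (le_iSup_of_le h1 le_rfl))

theorem fblNorm_le (f : StrongDual ℝ E → ℝ) (C : ℝ)
    (h : ∀ (m : ℕ) (x : Fin m → StrongDual ℝ E), (∀ v : E, ‖v‖ ≤ 1 → ∑ i, |x i v| ≤ 1) →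
      ∑ i, |f (x i)| ≤ C) : fblNorm E f ≤ ENNReal.ofReal C := by
  unfold fblNorm
  refine iSup_le fun m => iSup_le fun x => iSup_le fun hx => ?_
  exact ENNReal.ofReal_le_ofReal (h m x hx)

theorem exists_of_lt_fblNorm (f : StrongDual ℝ E → ℝ) (r : ℝ)
    (h : ENNReal.ofReal r < fblNorm E f) :
    ∃ (m : ℕ) (x : Fin m → StrongDual ℝ E), (∀ v : E, ‖v‖ ≤ 1 → ∑ i, |x i v| ≤ 1) ∧
      r < ∑ i, |f (x i)| := by
  by_contra hc
  push Not at hc
  exact absurd (fblNorm_le f r hc) (not_le.mpr h)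

theorem sum_le_norm {ι : Type} [Fintype ι] (x : ι → StrongDual ℝ E) {C : ℝ}
    (hx : ∀ v : E, ‖v‖ ≤ 1 → ∑ i, |x i v| ≤ C) (v : E) : ∑ i, |x i v| ≤ C * ‖v‖ := by
  by_cases hv : v = 0
  · simp [hv]
  have hpos : 0 < ‖v‖ := norm_pos_iff.mpr hv
  have h1 := hx (‖v‖⁻¹ • v) (by rw [norm_smul, norm_inv, norm_norm, inv_mul_cancel₀ hpos.ne'])
  have h2 : ∑ i, |x i (‖v‖⁻¹ • v)| = ‖v‖⁻¹ * ∑ i, |x i v| := by
    rw [Finset.mul_sum]
    refine Finset.sum_congr rfl fun i _ => ?_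
    rw [map_smul, smul_eq_mul, abs_mul, abs_of_pos (inv_pos.mpr hpos)]
  rw [h2, inv_mul_le_iff₀ hpos] at h1
  linarith

theorem LatGen.posHom {f : StrongDual ℝ E → ℝ} (hf : LatGen E f) :
    ∀ t : ℝ, 0 ≤ t → ∀ φ, f (t • φ) = t * f φ := by
  induction hf with
  | delta v => intro t _ φ; simp
  | add _ _ ihf ihg => intro t ht φ; simp only [Pi.add_apply, ihf t ht φ, ihg t ht φ]; ring
  | smul c _ ih => intro t ht φ; simp only [Pi.smul_apply, smul_eq_mul, ih t ht φ]; ring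
  | sup _ _ ihf ihg =>
    intro t ht φ; simp only [Pi.sup_apply, ihf t ht φ, ihg t ht φ, mul_max_of_nonneg _ _ ht]
  | inf _ _ ihf ihg =>
    intro t ht φ; simp only [Pi.inf_apply, ihf t ht φ, ihg t ht φ, mul_min_of_nonneg _ _ ht]

theorem LatGen.bdd {f : StrongDual ℝ E → ℝ} (hf : LatGen E f) :
    ∃ C : ℝ, ∀ (m : ℕ) (x : Fin m → StrongDual ℝ E),
      (∀ v : E, ‖v‖ ≤ 1 → ∑ i, |x i v| ≤ 1) → ∑ i, |f (x i)| ≤ C := by
  have key : ∀ {f g h : StrongDual ℝ E → ℝ}, (∀ φ, |h φ| ≤ |f φ| + |g φ|) →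
      (∃ C : ℝ, ∀ (m : ℕ) (x : Fin m → StrongDual ℝ E),
        (∀ v : E, ‖v‖ ≤ 1 → ∑ i, |x i v| ≤ 1) → ∑ i, |f (x i)| ≤ C) →
      (∃ C : ℝ, ∀ (m : ℕ) (x : Fin m → StrongDual ℝ E),
        (∀ v : E, ‖v‖ ≤ 1 → ∑ i, |x i v| ≤ 1) → ∑ i, |g (x i)| ≤ C) →
      (∃ C : ℝ, ∀ (m : ℕ) (x : Fin m → StrongDual ℝ E),
        (∀ v : E, ‖v‖ ≤ 1 → ∑ i, |x i v| ≤ 1) → ∑ i, |h (x i)| ≤ C) := by
    rintro f g h hh ⟨C, hC⟩ ⟨D, hD⟩
    refine ⟨C + D, fun m x hx => ?_⟩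
    calc ∑ i, |h (x i)| ≤ ∑ i, (|f (x i)| + |g (x i)|) := Finset.sum_le_sum fun i _ => hh _
      _ = ∑ i, |f (x i)| + ∑ i, |g (x i)| := Finset.sum_add_distrib
      _ ≤ C + D := add_le_add (hC m x hx) (hD m x hx)
  induction hf with
  | delta v => exact ⟨1 * ‖v‖, fun m x hx => sum_le_norm x hx v⟩
  | add _ _ ihf ihg => exact key (fun φ => abs_add_le _ _) ihf ihg
  | smul c _ ih =>
    obtain ⟨C, hC⟩ := ih
    refine ⟨|c| * C, fun m x hx => ?_⟩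
    simp only [Pi.smul_apply, smul_eq_mul, abs_mul, ← Finset.mul_sum]
    exact mul_le_mul_of_nonneg_left (hC m x hx) (abs_nonneg c)
  | @sup f g _ _ ihf ihg =>
    refine key (fun φ => ?_) ihf ihg
    simp only [Pi.sup_apply]
    rcases max_choice (f φ) (g φ) with h | h <;> rw [h] <;> linarith [abs_nonneg (f φ), abs_nonneg (g φ)]
  | @inf f g _ _ ihf ihg =>
    refine key (fun φ => ?_) ihf ihg
    simp only [Pi.inf_apply]
    rcases min_choice (f φ) (g φ) with h | h <;> rw [h] <;> linarith [abs_nonneg (f φ), abs_nonneg (g φ)]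

theorem LatGen.mem_FBL {f : StrongDual ℝ E → ℝ} (hf : LatGen E f) : f ∈ FBL E := by
  refine ⟨hf.posHom, ?_, fun ε hε => ⟨f, hf, ?_⟩⟩
  · obtain ⟨C, hC⟩ := hf.bdd
    exact lt_of_le_of_lt (fblNorm_le f C hC) ENNReal.ofReal_lt_top
  · refine lt_of_le_of_lt (fblNorm_le _ 0 ?_) ?_
    · intro m x _; simp
    · simpa using hε

theorem LatGen.zero : LatGen E 0 := by
  have := LatGen.smul (E := E) 0 (LatGen.delta (0 : E))
  simpa using this

theorem LatGen.abs {f : StrongDual ℝ E → ℝ} (hf : LatGen E f) : LatGen E (fun φ => |f φ|) := by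
  have := LatGen.sup hf (LatGen.smul (-1) hf)
  convert this using 1
  ext φ
  simp [abs_eq_max_neg]

theorem LatGen.sum {ι : Type} (s : Finset ι) (f : ι → StrongDual ℝ E → ℝ)
    (hf : ∀ i, LatGen E (f i)) : LatGen E (fun φ => ∑ i ∈ s, f i φ) := by
  classical
  induction s using Finset.induction_on with
  | empty => simp only [Finset.sum_empty]; exact LatGen.zero (E := E)
  | insert a s ha ih =>
    have := LatGen.add (hf a) ih
    convert this using 1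
    ext φ
    simp [Finset.sum_insert ha]

/-- scaling: a positively homogeneous function of norm at most one -/
theorem sum_le_of_norm_le_one {ι : Type} [Fintype ι] {y : StrongDual ℝ E → ℝ}
    (hy : ∀ t : ℝ, 0 ≤ t → ∀ φ, y (t • φ) = t * y φ) (hn : fblNorm E y ≤ 1)
    (x : ι → StrongDual ℝ E) {C : ℝ} (hC : 0 < C)
    (hx : ∀ v : E, ‖v‖ ≤ 1 → ∑ i, |x i v| ≤ C) : ∑ i, |y (x i)| ≤ C := by
  have hC' : 0 ≤ C⁻¹ := (inv_pos.mpr hC).le
  have h1 : ∀ v : E, ‖v‖ ≤ 1 → ∑ i, |(C⁻¹ • x i) v| ≤ 1 := by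
    intro v hv
    simp only [_root_.smul_apply, smul_eq_mul, abs_mul, abs_of_nonneg hC',
      ← Finset.mul_sum]
    rw [inv_mul_le_iff₀ hC]
    simpa using hx v hv
  have h2 := (le_fblNorm y (fun i => C⁻¹ • x i) h1).trans hn
  rw [ENNReal.ofReal_le_one] at h2
  simp only [hy _ hC', abs_mul, abs_of_nonneg hC', ← Finset.mul_sum] at h2
  rw [inv_mul_le_iff₀ hC] at h2
  simpa using h2

end Pool.Agent.P.MP_8a6196_an
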