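import Pool.Agent.P.MP_8a6196_an.Basic

/-! Octahedrality of `FBL[E]` gives a common contact point `x₀` of almost norming families. -/

namespace Pool.Agent.P.MP_8a6196_an

open scoped ENNReal
open Filter Topology

variable {E : Type} [NormedAddCommGroup E] [NormedSpace ℝ E]

/-- admissible finite families of functionals -/
def Adm {ι : Type} [Fintype ι] (x : ι → StrongDual ℝ E) : Prop :=
  ∀ v : E, ‖v‖ ≤ 1 → ∑ i, |x i v| ≤ 1

/-- the real valued norm -/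
noncomputable def nr (f : StrongDual ℝ E → ℝ) : ℝ := (fblNorm E f).toReal

theorem nr_nonneg (f : StrongDual ℝ E → ℝ) : 0 ≤ nr f := ENNReal.toReal_nonneg

theorem sum_le_nr {ι : Type} [Fintype ι] {f : StrongDual ℝ E → ℝ} (hf : fblNorm E f < ⊤)
    {x : ι → StrongDual ℝ E} (hx : Adm x) : ∑ i, |f (x i)| ≤ nr f :=
  (ENNReal.ofReal_le_iff_le_toReal hf.ne).1 (le_fblNorm f x hx)

theorem nr_le {f : StrongDual ℝ E → ℝ} {C : ℝ}
    (h : ∀ (m : ℕ) (x : Fin m → StrongDual ℝ E), Adm x → ∑ i, |f (x i)| ≤ C) :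
    fblNorm E f < ⊤ ∧ nr f ≤ C := by
  have h1 := fblNorm_le f C h
  have h0 : 0 ≤ C := by simpa using h 0 Fin.elim0 (fun v _ => by simp)
  exact ⟨h1.trans_lt ENNReal.ofReal_lt_top, ENNReal.toReal_le_of_le_ofReal h0 h1⟩

theorem exists_near {f : StrongDual ℝ E → ℝ} {r : ℝ} (h : r < nr f) :
    ∃ (m : ℕ) (x : Fin m → StrongDual ℝ E), Adm x ∧ r < ∑ i, |f (x i)| := by
  by_contra hc
  push Not at hc
  exact absurd (nr_le hc).2 (not_le.2 h)

theorem Adm.le {ι : Type} [Fintype ι] {x : ι → StrongDual ℝ E} (hx : Adm x) (v : E) :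
    ∑ i, |x i v| ≤ ‖v‖ := by simpa using sum_le_norm x hx v

theorem span_latGen {s : Set (StrongDual ℝ E → ℝ)} (hs : ∀ f ∈ s, LatGen E f) :
    ∀ z ∈ Submodule.span ℝ s, LatGen E z := by
  intro z hz
  induction hz using Submodule.span_induction with
  | mem f hf => exact hs f hf
  | zero => exact LatGen.zero
  | add _ _ _ _ h1 h2 => exact h1.add h2
  | smul c _ _ h => exact h.smul c

theorem common_finite (h : FBLOctahedral E) {ι : Type} [Fintype ι]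
    (f : ι → StrongDual ℝ E → ℝ) (hf : ∀ i, LatGen E (f i)) {ε : ℝ} (hε : 0 < ε) :
    ∃ v : E, ‖v‖ ≤ 1 ∧ ∀ i, ∃ (m : ℕ) (x : Fin m → StrongDual ℝ E), Adm x ∧
      nr (f i) - ε ≤ ∑ j, |f i (x j)| ∧ 1 - ε ≤ ∑ j, |x j v| := by
  rcases isEmpty_or_nonempty ι with hι | hι
  · exact ⟨0, by simp, fun i => isEmptyElim i⟩
  wlog hε1 : ε ≤ 1 / 2 generalizing ε
  · obtain ⟨v, hv, h2⟩ := this (ε := 1 / 2) (by norm_num) le_rfl
    refine ⟨v, hv, fun i => ?_⟩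
    obtain ⟨m, x, a1, a2, a3⟩ := h2 i
    exact ⟨m, x, a1, by linarith, by linarith⟩
  have hk : (1 : ℝ) ≤ Fintype.card ι := by exact_mod_cast Fintype.card_pos
  set k : ℝ := (Fintype.card ι : ℝ) with hkd
  set M : ℝ := ∑ i, nr (f i) with hM
  have hM0 : 0 ≤ M := Finset.sum_nonneg fun i _ => nr_nonneg _
  have hMi : ∀ i, nr (f i) ≤ M := fun i =>
    Finset.single_le_sum (f := fun i => nr (f i)) (fun i _ => nr_nonneg _) (Finset.mem_univ i)
  set δ : ℝ := ε / (k + 1) with hδ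
  have hδ0 : 0 < δ := by positivity
  have hδk : δ * (k + 1) = ε := by rw [hδ]; field_simp
  set η : ℝ := δ / (M + 2) with hη
  have hη0 : 0 < η := by positivity
  have hηM : η * (M + 2) = δ := by rw [hη]; field_simp
  have hL := span_latGen (s := Set.range f) (by rintro _ ⟨i, rfl⟩; exact hf i)
  obtain ⟨y, hy, hy1, hmain⟩ := h (Submodule.span ℝ (Set.range f))
    (fun z hz => (hL z hz).mem_FBL) (FiniteDimensional.span_of_finite ℝ (Set.finite_range f)) η hη0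
  have hy1' : fblNorm E y ≤ 1 := by
    rw [← ENNReal.ofReal_toReal hy.2.1.ne, hy1]; simp
  have key : ∀ i, ∃ (m : ℕ) (x : Fin m → StrongDual ℝ E), Adm x ∧
      nr (f i) - δ ≤ ∑ j, |f i (x j)| ∧ 1 - δ ≤ ∑ j, |y (x j)| := by
    intro i
    have h1 : (1 - η) * (nr (f i) + |(1 : ℝ)|) ≤ nr (f i + (1 : ℝ) • y) :=
      hmain _ (Submodule.subset_span ⟨i, rfl⟩) 1
    rw [abs_one, one_smul] at h1
    obtain ⟨m, x, hx, hs⟩ := exists_near (f := f i + y) (r := (1 - η) * (nr (f i) + 1) - η)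
      (by linarith)
    have h5 : ∑ j, |(f i + y) (x j)| ≤ ∑ j, |f i (x j)| + ∑ j, |y (x j)| := by
      rw [← Finset.sum_add_distrib]
      exact Finset.sum_le_sum fun j _ => abs_add_le _ _
    have h6 : ∑ j, |y (x j)| ≤ 1 := sum_le_of_norm_le_one hy.1 hy1' x one_pos hx
    have h7 := sum_le_nr (hf i).mem_FBL.2.1 hx
    have h8 : η * nr (f i) ≤ η * M := mul_le_mul_of_nonneg_left (hMi i) hη0.le
    refine ⟨m, x, hx, ?_, ?_⟩ <;> linarith
  choose m x hx h1 h2 using key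
  by_contra hc
  push Not at hc
  have hδε : δ ≤ ε := by nlinarith
  have hb := sum_le_of_norm_le_one (ι := Σ i, Fin (m i)) hy.1 hy1' (fun a => x a.1 a.2)
    (C := k - ε) (by linarith) (by
      intro v hv
      obtain ⟨i, hi⟩ := hc v hv
      have h3 := hi (m i) (x i) (hx i) (by linarith [h1 i])
      rw [Fintype.sum_sigma]
      have h4 : ∑ i', (1 - ∑ j, |x i' j v|) ≥ 1 - ∑ j, |x i j v| :=
        Finset.single_le_sum (f := fun i' => 1 - ∑ j, |x i' j v|)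
          (fun i' _ => sub_nonneg.2 (hx i' v hv)) (Finset.mem_univ i)
      rw [Finset.sum_sub_distrib, Finset.sum_const, Finset.card_univ, nsmul_eq_mul, mul_one] at h4
      linarith)
  rw [Fintype.sum_sigma] at hb
  have h5 : ∑ _i : ι, (1 - δ) ≤ ∑ i, ∑ j, |y (x i j)| := Finset.sum_le_sum fun i _ => h2 i
  rw [Finset.sum_const, Finset.card_univ, nsmul_eq_mul] at h5
  linarith

theorem common_point [FiniteDimensional ℝ E] (h : FBLOctahedral E) :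
    ∃ x₀ : E, ‖x₀‖ ≤ 1 ∧ ∀ f, LatGen E f → ∀ ε > (0 : ℝ),
      ∃ (m : ℕ) (x : Fin m → StrongDual ℝ E), Adm x ∧
        nr f - ε ≤ ∑ j, |f (x j)| ∧ 1 - ε ≤ ∑ j, |x j x₀| := by
  let I := {p : (StrongDual ℝ E → ℝ) × ℝ // LatGen E p.1 ∧ 0 < p.2}
  let A : I → Set E := fun p => {v | ∃ (m : ℕ) (x : Fin m → StrongDual ℝ E), Adm x ∧
    nr p.1.1 - p.1.2 ≤ ∑ j, |p.1.1 (x j)| ∧ 1 - p.1.2 ≤ ∑ j, |x j v|}
  obtain ⟨x₀, hx₀, hA⟩ := (isCompact_closedBall (0 : E) 1).inter_iInter_nonempty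
    (fun p => closure (A p)) (fun _ => isClosed_closure) (fun u => by
      have hev : ∀ᶠ δ in 𝓝[>] (0 : ℝ), ∀ p : u, δ ≤ p.1.1.2 :=
        eventually_all.2 fun p => eventually_nhdsWithin_of_eventually_nhds (ge_mem_nhds p.1.2.2)
      obtain ⟨δ, hδ, hδ0⟩ := (hev.and self_mem_nhdsWithin).exists
      obtain ⟨v, hv, h2⟩ := common_finite h (fun p : u => p.1.1.1) (fun p => p.1.2.1) hδ0
      refine ⟨v, by simpa using hv, Set.mem_iInter₂.2 fun p hp => subset_closure ?_⟩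
      obtain ⟨m, x, a1, a2, a3⟩ := h2 ⟨p, hp⟩
      have := hδ ⟨p, hp⟩
      exact ⟨m, x, a1, by linarith, by linarith⟩)
  refine ⟨x₀, by simpa using hx₀, fun f hf ε hε => ?_⟩
  obtain ⟨v, ⟨m, x, a1, a2, a3⟩, hv⟩ := Metric.mem_closure_iff.1
    (Set.mem_iInter.1 hA ⟨(f, ε / 2), hf, half_pos hε⟩) (ε / 2) (half_pos hε)
  refine ⟨m, x, a1, by linarith, ?_⟩
  have h1 := a1.le (v - x₀)
  have h2 : ∑ j, |x j v| ≤ ∑ j, |x j x₀| + ∑ j, |x j (v - x₀)| := by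
    rw [← Finset.sum_add_distrib]
    refine Finset.sum_le_sum fun j _ => ?_
    rw [map_sub]
    simpa using abs_add_le (x j x₀) (x j v - x j x₀)
  rw [dist_comm, dist_eq_norm] at hv
  linarith

/-- the contact property of `x₀` -/
def Contact (x₀ : E) : Prop :=
  ‖x₀‖ ≤ 1 ∧ ∀ f, LatGen E f → ∀ ε > (0 : ℝ),
    ∃ (m : ℕ) (x : Fin m → StrongDual ℝ E), Adm x ∧
      nr f - ε ≤ ∑ j, |f (x j)| ∧ 1 - ε ≤ ∑ j, |x j x₀|

theorem Contact.ineq {x₀ : E} (h : Contact x₀) {ι κ : Type} [Fintype ι] [Fintype κ]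
    {p : ι → StrongDual ℝ E} (hp : Adm p) (y : κ → E) (hy : ∑ j, y j = x₀) :
    1 - ∑ i, |p i x₀| ≤ ∑ j, (‖y j‖ - ∑ i, |p i (y j)|) := by
  let f : StrongDual ℝ E → ℝ := fun φ => ∑ j, |φ (y j)| - |φ x₀|
  have hf : LatGen E f := by
    have h1 := LatGen.sum Finset.univ (fun j (φ : StrongDual ℝ E) => |φ (y j)|)
      (fun j => (LatGen.delta (y j)).abs)
    convert LatGen.add h1 (LatGen.smul (-1) (LatGen.delta x₀).abs) using 1
    ext φ
    simp [f, sub_eq_add_neg]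
  have h0 : ∀ φ, |f φ| = ∑ j, |φ (y j)| - |φ x₀| := fun φ => abs_of_nonneg (by
    rw [sub_nonneg, ← hy, map_sum]
    exact Finset.abs_sum_le_sum_abs _ _)
  have h1 := sum_le_nr hf.mem_FBL.2.1 hp
  simp only [h0, Finset.sum_sub_distrib] at h1 ⊢
  rw [Finset.sum_comm] at h1
  refine le_of_forall_pos_le_add fun ε hε => ?_
  obtain ⟨m, x, a1, a2, a3⟩ := h.2 f hf (ε / 2) (half_pos hε)
  simp only [h0, Finset.sum_sub_distrib] at a2
  rw [Finset.sum_comm] at a2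
  have h2 : ∑ j, ∑ i, |x i (y j)| ≤ ∑ j, ‖y j‖ := Finset.sum_le_sum fun j _ => a1.le _
  linarith

theorem Contact.ext {x₀ : E} (h : Contact x₀) {ι : Type} [Fintype ι]
    {p : ι → StrongDual ℝ E} (hp : Adm p) :
    ∃ q : E →ₗ[ℝ] ℝ, q x₀ = 1 - ∑ i, |p i x₀| ∧ ∀ u, |q u| + ∑ i, |p i u| ≤ ‖u‖ := by
  let φ : E → ℝ := fun u => ‖u‖ - ∑ i, |p i u|
  have hφ0 : ∀ u, 0 ≤ φ u := fun u => sub_nonneg.2 (hp.le u)
  have hφs : ∀ (c : ℝ) u, φ (c • u) = |c| * φ u := fun c u => by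
    simp only [φ, norm_smul, map_smul, smul_eq_mul, abs_mul, Real.norm_eq_abs, mul_sub,
      Finset.mul_sum]
  let S : E → Set ℝ := fun u =>
    {r | ∃ (κ : Type) (_ : Fintype κ) (y : κ → E), ∑ j, y j = u ∧ r = ∑ j, φ (y j)}
  have hS1 : ∀ u, φ u ∈ S u := fun u => ⟨Unit, inferInstance, fun _ => u, by simp, by simp⟩
  have hS0 : ∀ u, ∀ r ∈ S u, 0 ≤ r := by
    rintro u _ ⟨κ, _, y, -, rfl⟩
    exact Finset.sum_nonneg fun j _ => hφ0 _
  have hb : ∀ u, BddBelow (S u) := fun u => ⟨0, hS0 u⟩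
  let N : E → ℝ := fun u => sInf (S u)
  have hN0 : ∀ u, 0 ≤ N u := fun u => le_csInf ⟨_, hS1 u⟩ (hS0 u)
  have hle : ∀ c : ℝ, 0 < c → ∀ u, N (c • u) ≤ c * N u := by
    intro c hc u
    rw [← div_le_iff₀' hc]
    refine le_csInf ⟨_, hS1 u⟩ ?_
    rintro _ ⟨κ, _, y, hy, rfl⟩
    rw [div_le_iff₀' hc]
    refine csInf_le (hb _) ⟨κ, inferInstance, fun j => c • y j, ?_, ?_⟩
    · rw [← Finset.smul_sum, hy]
    · simp only [hφs, abs_of_pos hc, Finset.mul_sum]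
  have hhom : ∀ c : ℝ, 0 < c → ∀ u, N (c • u) = c * N u := by
    intro c hc u
    refine le_antisymm (hle c hc u) ?_
    have := hle c⁻¹ (inv_pos.2 hc) (c • u)
    rw [inv_smul_smul₀ hc.ne', ← div_eq_inv_mul, le_div_iff₀' hc] at this
    exact this
  have hadd : ∀ u w, N (u + w) ≤ N u + N w := by
    intro u w
    rw [← sub_le_iff_le_add]
    refine le_csInf ⟨_, hS1 u⟩ ?_
    rintro _ ⟨κ, _, y, hy, rfl⟩
    rw [sub_le_comm]
    refine le_csInf ⟨_, hS1 w⟩ ?_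
    rintro _ ⟨κ', _, y', hy', rfl⟩
    rw [sub_le_iff_le_add']
    refine csInf_le (hb _) ⟨κ ⊕ κ', inferInstance, Sum.elim y y', ?_, ?_⟩
    · simp [Fintype.sum_sum_type, hy, hy']
    · simp [Fintype.sum_sum_type]
  set c : ℝ := 1 - ∑ i, |p i x₀| with hc
  have hc0 : 0 ≤ c := sub_nonneg.2 (hp x₀ h.1)
  have hcN : c ≤ N x₀ := by
    refine le_csInf ⟨_, hS1 x₀⟩ ?_
    rintro _ ⟨κ, _, y, hy, rfl⟩
    exact h.ineq hp y hy
  have hx0 : x₀ ≠ 0 := by
    rintro rfl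
    have := h.ineq hp (κ := Empty) Empty.elim (by simp)
    simp at this
    linarith
  obtain ⟨q, hq1, hq2⟩ := exists_extension_of_le_sublinear (LinearPMap.mkSpanSingleton x₀ c hx0) N
    hhom hadd (by
      rintro ⟨w, hw⟩
      obtain ⟨t, rfl⟩ := Submodule.mem_span_singleton.1 hw
      rw [LinearPMap.mkSpanSingleton'_apply, smul_eq_mul]
      rcases le_or_gt t 0 with ht | ht
      · exact (mul_nonpos_of_nonpos_of_nonneg ht hc0).trans (hN0 _)
      · change _ ≤ N (t • x₀)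
        rw [hhom t ht]
        exact mul_le_mul_of_nonneg_left hcN ht.le)
  refine ⟨q, ?_, fun u => ?_⟩
  · exact (hq1 ⟨x₀, Submodule.mem_span_singleton_self x₀⟩).trans
      (LinearPMap.mkSpanSingleton_apply ℝ ℝ hx0 c)
  · have h1 : q u ≤ φ u := (hq2 u).trans (csInf_le (hb _) (hS1 u))
    have h2 : q ((-1 : ℝ) • u) ≤ φ ((-1 : ℝ) • u) := (hq2 _).trans (csInf_le (hb _) (hS1 _))
    rw [hφs, map_smul] at h2
    simp only [smul_eq_mul, abs_neg, abs_one, one_mul] at h2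
    have h3 : |q u| ≤ φ u := abs_le.2 ⟨by linarith, h1⟩
    exact le_sub_iff_add_le.1 h3

end Pool.Agent.P.MP_8a6196_an
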