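import Pool.Agent.P.MP_8a6196_an.ClA

/-! A contact point spans a one-dimensional `ℓ₁`-summand. -/

namespace Pool.Agent.P.MP_8a6196_an

open Filter Topology

variable {E : Type} [NormedAddCommGroup E] [NormedSpace ℝ E] [FiniteDimensional ℝ E]

theorem Contact.one {x₀ : E} (h : Contact x₀) {r : StrongDual ℝ E} (hr : ∀ u, |r u| ≤ ‖u‖) :
    ∃ q : StrongDual ℝ E, q x₀ = 1 - |r x₀| ∧ ∀ u, |q u| + |r u| ≤ ‖u‖ := by
  obtain ⟨q, h1, h2⟩ := h.ext (ι := Unit) (p := fun _ => r)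
    (fun v hv => by simpa using (hr v).trans hv)
  exact ⟨LinearMap.toContinuousLinearMap q, by simpa using h1, by simpa using h2⟩

theorem half_abs (a b : ℝ) : |a| ≤ |1 / 2 * (a + b)| + |1 / 2 * (a - b)| ∧
    |b| ≤ |1 / 2 * (a + b)| + |1 / 2 * (a - b)| ∧
    ∀ c, |a| ≤ c → |b| ≤ c → |1 / 2 * (a + b)| + |1 / 2 * (a - b)| ≤ c := by
  refine ⟨?_, ?_, fun c h1 h2 => ?_⟩
  · exact le_trans (le_of_eq (by congr 1; ring)) (abs_add_le _ _)
  · exact le_trans (le_of_eq (by congr 1; ring)) (abs_sub _ _)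
  · have := abs_le.1 h1
    have := abs_le.1 h2
    rcases abs_cases (1 / 2 * (a + b)) with h | h <;> rcases abs_cases (1 / 2 * (a - b)) with h' | h' <;>
      linarith

theorem Contact.two {x₀ : E} (h : Contact x₀) {p p' : StrongDual ℝ E} (hp : ∀ u, |p u| ≤ ‖u‖)
    (hp' : ∀ u, |p' u| ≤ ‖u‖) (h0 : p x₀ = 0) (h0' : p' x₀ = 0) :
    ∃ q : StrongDual ℝ E, q x₀ = 1 ∧ (∀ u, |q u| + |p u| ≤ ‖u‖) ∧ ∀ u, |q u| + |p' u| ≤ ‖u‖ := by
  have hs : ∀ u, ∑ i, |(![(1 / 2 : ℝ) • (p + p'), (1 / 2 : ℝ) • (p - p')] i) u| =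
      |1 / 2 * (p u + p' u)| + |1 / 2 * (p u - p' u)| := fun u => Fin.sum_univ_two _
  obtain ⟨q, h1, h2⟩ := h.ext (ι := Fin 2)
    (p := ![(1 / 2 : ℝ) • (p + p'), (1 / 2 : ℝ) • (p - p')]) (fun v hv => by
      rw [hs]
      exact (half_abs (p v) (p' v)).2.2 1 ((hp v).trans hv) ((hp' v).trans hv))
  simp only [hs] at h1 h2
  refine ⟨LinearMap.toContinuousLinearMap q, by simpa [h0, h0'] using h1, fun u => ?_, fun u => ?_⟩
  · exact (add_le_add_right (half_abs (p u) (p' u)).1 _).trans (h2 u)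
  · exact (add_le_add_right (half_abs (p u) (p' u)).2.1 _).trans (h2 u)

theorem Contact.summand {x₀ : E} (h : Contact x₀) :
    ∃ e : StrongDual ℝ E, e x₀ = 1 ∧ ∀ (t : ℝ) (y : E), e y = 0 → ‖t • x₀ + y‖ = |t| + ‖y‖ := by
  let D : Set (StrongDual ℝ E) := {p | (∀ u, |p u| ≤ ‖u‖) ∧ p x₀ = 0}
  have hcl : ∀ (c : E → ℝ), IsClosed {p : StrongDual ℝ E | ∀ u, |p u| ≤ c u} := fun c => by
    rw [Set.setOf_forall]
    exact isClosed_iInter fun u => isClosed_le (by fun_prop) continuous_const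
  have hcv : ∀ (c : E → ℝ), Convex ℝ {p : StrongDual ℝ E | ∀ u, |p u| ≤ c u} := by
    intro c p hp p' hp' a b ha hb hab u
    have h1 := mul_le_mul_of_nonneg_left (hp u) ha
    have h2 := mul_le_mul_of_nonneg_left (hp' u) hb
    have h3 := abs_add_le (a * p u) (b * p' u)
    rw [abs_mul, abs_mul, abs_of_nonneg ha, abs_of_nonneg hb] at h3
    have h4 : a * c u + b * c u = c u := by rw [← add_mul, hab, one_mul]
    change |a * p u + b * p' u| ≤ c u
    linarith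
  have hDc : IsCompact D := by
    refine (isCompact_closedBall (0 : StrongDual ℝ E) 1).of_isClosed_subset
      ((hcl _).inter (isClosed_eq (by fun_prop) continuous_const)) fun p hp => ?_
    rw [mem_closedBall_zero_iff]
    exact p.opNorm_le_bound zero_le_one fun u => by simpa using hp.1 u
  have hDv : Convex ℝ D := fun p hp p' hp' a b ha hb hab =>
    ⟨hcv _ hp.1 hp'.1 ha hb hab, by simp [hp.2, hp'.2]⟩
  have hD0 : D.Nonempty := ⟨0, fun u => by simp, rfl⟩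
  have uniq : ∀ p ∈ D.extremePoints ℝ, ∀ q q' : StrongDual ℝ E, q x₀ = 1 → q' x₀ = 1 →
      (∀ u, |q u| + |p u| ≤ ‖u‖) → (∀ u, |q' u| + |p u| ≤ ‖u‖) → q = q' := by
    intro p hp q q' a1 a2 a3 a4
    have mem : ∀ s : ℝ, |s| = 1 / 2 → p + s • (q - q') ∈ D := fun s hs =>
      ⟨fun u => by
        have h1 := abs_add_le (p u) (s * (q u - q' u))
        have h2 := abs_sub (q u) (q' u)
        rw [abs_mul, hs] at h1
        change |p u + s * (q u - q' u)| ≤ _
        linarith [a3 u, a4 u], by simp [a1, a2, hp.1.2]⟩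
    have h1 := (mem_extremePoints.1 hp).2 _ (mem (1 / 2) (by norm_num)) _
      (mem (-(1 / 2)) (by norm_num)) ⟨1 / 2, 1 / 2, by norm_num, by norm_num, by norm_num, by module⟩
    have h2 : (1 / 2 : ℝ) • (q - q') = 0 := by simpa using h1.1
    simpa [sub_eq_zero] using h2
  obtain ⟨p₀, hp₀⟩ := hDc.extremePoints_nonempty hD0
  obtain ⟨e, he, he₀, -⟩ := h.two hp₀.1.1 hp₀.1.1 hp₀.1.2 hp₀.1.2
  have hall : ∀ p ∈ D, ∀ u, |p u| ≤ ‖u‖ - |e u| := by
    have h1 : D.extremePoints ℝ ⊆ {p : StrongDual ℝ E | ∀ u, |p u| ≤ ‖u‖ - |e u|} := by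
      intro p hp u
      obtain ⟨q, b1, b2, b3⟩ := h.two hp₀.1.1 hp.1.1 hp₀.1.2 hp.1.2
      rw [← uniq p₀ hp₀ q e b1 he b2 he₀]
      linarith [b3 u]
    have h2 := closure_minimal (convexHull_min h1 (hcv _)) (hcl _)
    rw [closure_convexHull_extremePoints hDc hDv] at h2
    exact h2
  refine ⟨e, he, fun t y hy => le_antisymm ?_ ?_⟩
  · refine (norm_add_le _ _).trans ?_
    rw [norm_smul, Real.norm_eq_abs]
    linarith [mul_le_mul_of_nonneg_left h.1 (abs_nonneg t)]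
  · obtain ⟨p, hp, hmax⟩ := hDc.exists_isMaxOn hD0 (f := fun p : StrongDual ℝ E => p y) (by fun_prop)
    obtain ⟨r, hr1, hr2⟩ := exists_dual_vector'' ℝ y
    have hr : ∀ u, |r u| ≤ ‖u‖ := fun u => (r.le_opNorm u).trans
      (mul_le_of_le_one_left (norm_nonneg u) hr1)
    replace hr2 : r y = ‖y‖ := hr2
    obtain ⟨q, hq1, hq2⟩ := h.one hr
    have hqy : q y = 0 := by
      have := hq2 y
      rw [hr2, abs_norm] at this
      exact abs_nonpos_iff.1 (by linarith)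
    obtain ⟨σ, hσ, hσ'⟩ : ∃ σ : ℝ, |σ| = 1 ∧ r x₀ + σ * q x₀ = σ := by
      rcases abs_cases (r x₀) with h1 | h1
      · exact ⟨1, abs_one, by rw [hq1, h1.1]; ring⟩
      · exact ⟨-1, by simp, by rw [hq1, h1.1]; ring⟩
    have hm : (1 / 2 : ℝ) • (r + σ • q - σ • e + p) ∈ D := by
      refine ⟨fun u => ?_, ?_⟩
      · change |1 / 2 * (r u + σ * q u - σ * e u + p u)| ≤ _
        have h1 := abs_add_le (r u + σ * q u - σ * e u) (p u)
        have h2 := abs_sub (r u + σ * q u) (σ * e u)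
        have h3 := abs_add_le (r u) (σ * q u)
        rw [abs_mul, hσ] at h2 h3
        rw [abs_mul, abs_of_pos (by norm_num : (0 : ℝ) < 1 / 2)]
        linarith [hq2 u, hall p hp u]
      · change 1 / 2 * (r x₀ + σ * q x₀ - σ * e x₀ + p x₀) = 0
        rw [hσ', he, hp.2]; ring
    have h1 : 1 / 2 * (r y + σ * q y - σ * e y + p y) ≤ p y := hmax hm
    rw [hr2, hqy, hy] at h1
    have h2 := hall p hp (t • x₀ + y)
    simp only [map_add, map_smul, he, hy, hp.2, smul_eq_mul, mul_one, mul_zero, add_zero,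
      zero_add] at h2
    linarith [le_abs_self (p y)]

end Pool.Agent.P.MP_8a6196_an
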