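import Pool.Agent.P.MP_8a6196_an.ClA

/-! Tools for the octahedral case: norm calculus, finite nets, separation and interpolation. -/

namespace Pool.Agent.P.MP_8a6196_an

open scoped ENNReal
open Filter Topology

variable {E : Type} [NormedAddCommGroup E] [NormedSpace ℝ E]

/-- positively homogeneous functions of finite norm -/
def PH (f : StrongDual ℝ E → ℝ) : Prop :=
  (∀ t : ℝ, 0 ≤ t → ∀ φ, f (t • φ) = t * f φ) ∧ fblNorm E f < ⊤

theorem PH.of_mem {f : StrongDual ℝ E → ℝ} (h : f ∈ FBL E) : PH f := ⟨h.1, h.2.1⟩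

theorem PH.sum_le {ι : Type} [Fintype ι] {f : StrongDual ℝ E → ℝ} (hf : PH f)
    (x : ι → StrongDual ℝ E) {C : ℝ} (hC : 0 < C) (hx : ∀ v : E, ‖v‖ ≤ 1 → ∑ i, |x i v| ≤ C) :
    ∑ i, |f (x i)| ≤ C * nr f := by
  have hC' : 0 ≤ C⁻¹ := (inv_pos.mpr hC).le
  have h1 : Adm fun i => C⁻¹ • x i := by
    intro v hv
    simp only [_root_.smul_apply, smul_eq_mul, abs_mul, abs_of_nonneg hC', ← Finset.mul_sum]
    rw [inv_mul_le_iff₀ hC]
    simpa using hx v hv
  have h2 := sum_le_nr hf.2 h1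
  simp only [hf.1 _ hC', abs_mul, abs_of_nonneg hC', ← Finset.mul_sum] at h2
  rwa [inv_mul_le_iff₀ hC] at h2

theorem PH.add {f g : StrongDual ℝ E → ℝ} (hf : PH f) (hg : PH g) :
    PH (f + g) ∧ nr (f + g) ≤ nr f + nr g := by
  have h := nr_le (f := f + g) (C := nr f + nr g) fun m x hx => by
    refine le_trans ?_ (add_le_add (sum_le_nr hf.2 hx) (sum_le_nr hg.2 hx))
    rw [← Finset.sum_add_distrib]
    exact Finset.sum_le_sum fun j _ => abs_add_le _ _
  exact ⟨⟨fun t ht φ => by simp only [Pi.add_apply, hf.1 t ht, hg.1 t ht, mul_add], h.1⟩, h.2⟩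

theorem PH.smul_le {f : StrongDual ℝ E → ℝ} (hf : PH f) (c : ℝ) :
    PH (c • f) ∧ nr (c • f) ≤ |c| * nr f := by
  have h := nr_le (f := c • f) (C := |c| * nr f) fun m x hx => by
    simp only [Pi.smul_apply, smul_eq_mul, abs_mul, ← Finset.mul_sum]
    exact mul_le_mul_of_nonneg_left (sum_le_nr hf.2 hx) (abs_nonneg c)
  exact ⟨⟨fun t ht φ => by simp only [Pi.smul_apply, hf.1 t ht, smul_eq_mul]; ring, h.1⟩, h.2⟩

theorem PH.nr_smul {f : StrongDual ℝ E → ℝ} (hf : PH f) (c : ℝ) : nr (c • f) = |c| * nr f := by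
  refine le_antisymm (hf.smul_le c).2 ?_
  rcases eq_or_ne c 0 with rfl | hc
  · simpa using nr_nonneg _
  have h := ((hf.smul_le c).1.smul_le c⁻¹).2
  rw [inv_smul_smul₀ hc, abs_inv, ← div_eq_inv_mul, le_div_iff₀' (abs_pos.2 hc)] at h
  exact h

theorem PH.eq_zero {f : StrongDual ℝ E → ℝ} (hf : PH f) (h : nr f = 0) : f = 0 := by
  ext φ
  have h1 := hf.sum_le (ι := Unit) (fun _ => φ) (C := ‖φ‖ + 1) (by positivity) fun v hv => by
    have h2 : |φ v| ≤ ‖φ‖ * ‖v‖ := φ.le_opNorm v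
    have h3 := mul_le_of_le_one_right (norm_nonneg φ) hv
    simp only [Finset.univ_unique, Finset.sum_singleton]
    linarith
  simpa [h] using h1

theorem exists_net (Y : Submodule ℝ (StrongDual ℝ E → ℝ)) (hY : (Y : Set _) ⊆ FBL E)
    [FiniteDimensional ℝ Y] {ε : ℝ} (hε : 0 < ε) :
    ∃ (ι : Type) (_ : Fintype ι) (_ : Nonempty ι) (g : ι → StrongDual ℝ E → ℝ),
      (∀ i, LatGen E (g i)) ∧ ∀ z ∈ Y, nr z = 1 → ∃ i, nr (z - g i) ≤ ε := by
  have hP : ∀ z : Y, PH (z : StrongDual ℝ E → ℝ) := fun z => PH.of_mem (hY z.2)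
  letI : NormedAddCommGroup Y := AddGroupNorm.toNormedAddCommGroup
    { toFun := fun z => nr (z : StrongDual ℝ E → ℝ)
      map_zero' := by simpa using (hP 0).nr_smul 0
      add_le' := fun z w => ((hP z).add (hP w)).2
      neg' := fun z => by simpa using (hP z).nr_smul (-1)
      eq_zero_of_map_eq_zero' := fun z hz => Subtype.ext ((hP z).eq_zero hz) }
  letI : NormedSpace ℝ Y := ⟨fun c z => ((hP z).smul_le c).2⟩
  haveI : ProperSpace Y := FiniteDimensional.proper_real Y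
  obtain ⟨t, -, ht, hc⟩ := finite_cover_balls_of_compact (isCompact_sphere (0 : Y) 1) (half_pos hε)
  choose g hg1 hg2 using fun z : Y => (hY z.2).2.2 (ε / 2) (half_pos hε)
  haveI := ht.fintype
  refine ⟨Option t, inferInstance, inferInstance, fun o => o.elim 0 fun z => g z, ?_, ?_⟩
  · rintro (_ | z)
    exacts [LatGen.zero, hg1 z]
  · intro z hz h1
    obtain ⟨w, hw, hzw⟩ := Set.mem_iUnion₂.1 (hc (mem_sphere_zero_iff_norm.2 (show ‖(⟨z, hz⟩ : Y)‖ = 1 from h1)))
    refine ⟨some ⟨w, hw⟩, ?_⟩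
    rw [mem_ball_iff_norm] at hzw
    have h2 : nr ((⟨z, hz⟩ - w : Y) : StrongDual ℝ E → ℝ) < ε / 2 := hzw
    have h3 : PH ((w : StrongDual ℝ E → ℝ) - g w) := by
      simpa [sub_eq_add_neg] using ((hP w).add ((PH.of_mem (hg1 w).mem_FBL).smul_le (-1)).1).1
    have h4 : nr ((w : StrongDual ℝ E → ℝ) - g w) ≤ ε / 2 :=
      ENNReal.toReal_le_of_le_ofReal (half_pos hε).le (hg2 w).le
    have h5 := ((hP (⟨z, hz⟩ - w)).add h3).2
    have h6 : ((⟨z, hz⟩ - w : Y) : StrongDual ℝ E → ℝ) + ((w : StrongDual ℝ E → ℝ) - g w) =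
        z - g w := by simp
    rw [h6] at h5
    change nr (z - g w) ≤ ε
    linarith

theorem LatGen.continuous {f : StrongDual ℝ E → ℝ} (hf : LatGen E f) : Continuous f := by
  induction hf with
  | delta v => fun_prop
  | add _ _ h1 h2 => exact h1.add h2
  | smul c _ h => exact h.const_smul c
  | sup _ _ h1 h2 => exact h1.max h2
  | inf _ _ h1 h2 => exact h1.min h2

theorem interpolate {A : Type} [Fintype A] [Nonempty A] (x : A → StrongDual ℝ E)
    (hx : ∀ a b, ∃ v, 0 < x a v ∧ (a ≠ b → x b v ≤ 0)) (x₀ : E) (s : A → ℝ) (hs : ∀ a, |s a| = 1) :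
    ∃ g, LatGen E g ∧ (∀ φ, |g φ| ≤ |φ x₀|) ∧ ∀ a, g (x a) = s a * |x a x₀| := by
  classical
  choose v hv1 hv2 using hx
  let β : A → StrongDual ℝ E → ℝ := fun a =>
    Finset.univ.inf' Finset.univ_nonempty fun b => (fun φ : StrongDual ℝ E => φ (v a b)) ⊔ 0
  have hβ : ∀ a, LatGen E (β a) := fun a =>
    Finset.inf'_induction _ _ (fun _ h1 _ h2 => h1.inf h2)
      fun b _ => (LatGen.delta _).sup LatGen.zero
  have hβ1 : ∀ a, 0 < β a (x a) := fun a => by
    simp only [β, Finset.inf'_apply, Finset.lt_inf'_iff]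
    exact fun b _ => lt_sup_of_lt_left (hv1 a b)
  have hβ0 : ∀ a b, a ≠ b → β a (x b) = 0 := fun a b hab => by
    simp only [β, Finset.inf'_apply]
    refine le_antisymm ((Finset.inf'_le _ (Finset.mem_univ b)).trans ?_)
      (Finset.le_inf' _ _ fun c _ => le_sup_right)
    exact sup_le (hv2 a b hab) le_rfl
  let h : StrongDual ℝ E → ℝ := fun φ => ∑ a, ((s a * |x a x₀| / β a (x a)) • β a) φ
  have hh : LatGen E h := LatGen.sum _ _ fun a => (hβ a).smul _
  have hval : ∀ b, h (x b) = s b * |x b x₀| := fun b => by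
    simp only [h, Pi.smul_apply, smul_eq_mul]
    rw [Finset.sum_eq_single b (fun a _ hab => by rw [hβ0 a b hab, mul_zero]) (by simp),
      div_mul_cancel₀ _ (hβ1 b).ne']
  have hd := (LatGen.delta x₀).abs
  refine ⟨_, (hh.inf hd).sup (hd.smul (-1)), fun φ => ?_, fun a => ?_⟩
  · simp only [Pi.sup_apply, Pi.inf_apply, Pi.smul_apply, smul_eq_mul, neg_one_mul]
    exact abs_le.2 ⟨le_sup_right, sup_le inf_le_right (neg_le_self (abs_nonneg _))⟩
  · simp only [Pi.sup_apply, Pi.inf_apply, Pi.smul_apply, smul_eq_mul, neg_one_mul, hval]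
    have h1 : |s a * (|x a x₀|)| = |x a x₀| := by rw [abs_mul, hs, abs_abs, one_mul]
    have h2 := abs_le.1 h1.le
    rw [inf_eq_left.2 h2.2, sup_eq_left.2 h2.1]

theorem quad_ne (a b c : ℝ) (ha : a ≠ 0) : ∀ᶠ τ in 𝓝[≠] (0 : ℝ), a * τ ^ 2 + b * τ + c ≠ 0 := by
  have h0 : (Polynomial.C a * Polynomial.X ^ 2 + Polynomial.C b * Polynomial.X + Polynomial.C c :
      Polynomial ℝ) ≠ 0 := fun h => ha (by simpa using congrArg (fun p => p.coeff 2) h)
  refine nhdsNE_le_cofinite 0 ?_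
  filter_upwards [(Polynomial.finite_setOf_isRoot h0).compl_mem_cofinite] with τ hτ
  simpa using hτ

theorem perturb [FiniteDimensional ℝ E] (hE : 2 ≤ Module.finrank ℝ E) {A : Type} [Fintype A]
    (x : A → StrongDual ℝ E) : ∃ w : A → StrongDual ℝ E, ∀ᶠ τ in 𝓝[≠] (0 : ℝ),
      ∀ a b, ∃ v, 0 < (x a + τ • w a) v ∧ (a ≠ b → (x b + τ • w b) v ≤ 0) := by
  classical
  let B := Module.finBasis ℝ E
  let i : Fin (Module.finrank ℝ E) := ⟨0, by omega⟩
  let j : Fin (Module.finrank ℝ E) := ⟨1, by omega⟩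
  have hij : i ≠ j := by simp [i, j]
  let k : A → ℝ := fun a => (Fintype.equivFin A a : ℕ)
  have hk : ∀ a b, a ≠ b → k b - k a ≠ 0 := fun a b hab h =>
    hab ((Fintype.equivFin A).injective (Fin.ext (Nat.cast_injective (R := ℝ) (sub_eq_zero.1 h).symm)))
  let w : A → StrongDual ℝ E := fun a =>
    LinearMap.toContinuousLinearMap (B.coord i + k a • B.coord j)
  have hwi : ∀ a, w a (B i) = 1 := fun a => by simp [w, hij]
  have hwj : ∀ a, w a (B j) = k a := fun a => by simp [w, hij.symm]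
  have sgn : ∀ (p q : StrongDual ℝ E) (v : E), p v ≠ 0 → q v = 0 → ∃ v, 0 < p v ∧ q v ≤ 0 := by
    intro p q v h1 h2
    rcases h1.lt_or_gt with h | h
    · exact ⟨-v, by simpa using h, by simp [h2]⟩
    · exact ⟨v, h, h2.le⟩
  refine ⟨w, eventually_all.2 fun a => eventually_all.2 fun b => ?_⟩
  rcases eq_or_ne a b with rfl | hab
  · filter_upwards [quad_ne 1 (x a (B i)) 0 one_ne_zero] with τ hτ
    obtain ⟨v, hv, -⟩ := sgn (x a + τ • w a) 0 (B i) (fun h => hτ (by
      simp only [_root_.add_apply, _root_.smul_apply, hwi, smul_eq_mul] at h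
      linear_combination τ * h)) rfl
    exact ⟨v, hv, fun h => absurd rfl h⟩
  · filter_upwards [quad_ne (k b - k a)
      (x a (B i) * k b + x b (B j) - x a (B j) - k a * x b (B i))
      (x a (B i) * x b (B j) - x a (B j) * x b (B i)) (hk a b hab)] with τ hτ
    obtain ⟨v, hv, hv'⟩ := sgn (x a + τ • w a) (x b + τ • w b)
      ((x b (B j) + τ * k b) • B i - (x b (B i) + τ) • B j) (fun h => hτ (by
        simp only [_root_.add_apply, _root_.smul_apply, map_sub, map_smul, hwi, hwj, smul_eq_mul] at h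
        linear_combination h)) (by
        simp only [_root_.add_apply, _root_.smul_apply, map_sub, map_smul, hwi, hwj, smul_eq_mul]
        ring)
    exact ⟨v, hv, fun _ => hv'⟩

end Pool.Agent.P.MP_8a6196_an
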