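import Pool.Agent.P.MP_8a6196_an.ClB
import Pool.Agent.P.MP_8a6196_an.ClC

/-! A one-dimensional `ℓ₁`-summand makes `FBL[E]` octahedral; the classification. -/

namespace Pool.Agent.P.MP_8a6196_an

open Filter Topology

variable {E : Type} [NormedAddCommGroup E] [NormedSpace ℝ E] [FiniteDimensional ℝ E]

omit [FiniteDimensional ℝ E] in
theorem saturate {x₀ : E} {e : StrongDual ℝ E} (he : e x₀ = 1)
    (hn : ∀ (t : ℝ) (y : E), e y = 0 → ‖t • x₀ + y‖ = |t| + ‖y‖) (g : StrongDual ℝ E → ℝ) {r : ℝ}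
    (hr : r < nr g) : ∃ (m : ℕ) (x : Option (Fin m) → StrongDual ℝ E), Adm x ∧
      r < ∑ j, |g (x j)| ∧ ∑ j, |x j x₀| = 1 := by
  obtain ⟨m, x, hx, h1⟩ := exists_near hr
  have hx0 : ‖x₀‖ = 1 := by simpa using hn 1 0 (map_zero e)
  set c : ℝ := 1 - ∑ j, |x j x₀| with hc
  have hc0 : 0 ≤ c := sub_nonneg.2 (hx x₀ hx0.le)
  refine ⟨m, fun o => o.elim (c • e) x, fun v hv => ?_, ?_, ?_⟩
  · have h2 := hn (e v) (v - e v • x₀) (by simp [he])
    rw [add_sub_cancel] at h2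
    have h3 := hx.le (v - e v • x₀)
    have h4 : ∑ j, |x j v| ≤ |e v| * ∑ j, |x j x₀| + ∑ j, |x j (v - e v • x₀)| := by
      rw [Finset.mul_sum, ← Finset.sum_add_distrib]
      refine Finset.sum_le_sum fun j _ => ?_
      rw [map_sub, map_smul, smul_eq_mul, ← abs_mul]
      simpa using abs_add_le (e v * x j x₀) (x j v - e v * x j x₀)
    simp only [Fintype.sum_option, Option.elim, _root_.smul_apply, smul_eq_mul, abs_mul,
      abs_of_nonneg hc0]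
    rw [hc]
    linarith
  · simp only [Fintype.sum_option, Option.elim]
    linarith [abs_nonneg (g (c • e))]
  · simp only [Fintype.sum_option, Option.elim, _root_.smul_apply, he, smul_eq_mul, mul_one,
      abs_of_nonneg hc0]
    rw [hc]; ring

theorem separated (hE : 2 ≤ Module.finrank ℝ E) {x₀ : E} {ι : Type} [Fintype ι] {κ : ι → Type}
    [∀ i, Fintype (κ i)] (g : ι → StrongDual ℝ E → ℝ) (hg : ∀ i, LatGen E (g i)) (r : ι → ℝ)
    (x : ∀ i, κ i → StrongDual ℝ E) (hx : ∀ i, Adm (x i)) (h1 : ∀ i, r i < ∑ j, |g i (x i j)|)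
    (h2 : ∀ i, ∑ j, |x i j x₀| = 1) {ε : ℝ} (hε : 0 < ε) :
    ∃ x' : (Σ i, κ i) → StrongDual ℝ E, (∀ a b, ∃ v, 0 < x' a v ∧ (a ≠ b → x' b v ≤ 0)) ∧
      ∀ i, r i < ∑ j, |g i (x' ⟨i, j⟩)| ∧ 1 - ε < ∑ j, |x' ⟨i, j⟩ x₀| ∧
        ∀ v : E, ‖v‖ ≤ 1 → ∑ j, |x' ⟨i, j⟩ v| ≤ 1 + ε := by
  obtain ⟨w, hw⟩ := perturb hE (fun a : Σ i, κ i => x a.1 a.2)
  have ev : ∀ (F : ℝ → ℝ) (c : ℝ), Continuous F → c < F 0 → ∀ᶠ τ in 𝓝 (0 : ℝ), c < F τ :=
    fun F c hF hc => hF.continuousAt.eventually (lt_mem_nhds hc)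
  have hall : ∀ᶠ τ in 𝓝 (0 : ℝ), ∀ i, r i < ∑ j, |g i (x i j + τ • w ⟨i, j⟩)| ∧
      1 - ε < ∑ j, |(x i j + τ • w ⟨i, j⟩) x₀| ∧ -ε < -(|τ| * ∑ j, ‖w ⟨i, j⟩‖) := by
    refine eventually_all.2 fun i => (ev _ _ ?_ ?_).and ((ev _ _ ?_ ?_).and (ev _ _ ?_ ?_))
    · have := (hg i).continuous
      fun_prop
    · simpa using h1 i
    · fun_prop
    · simp [h2 i, hε]
    · fun_prop
    · simpa using hε
  obtain ⟨τ, a1, a2⟩ := (hw.and (eventually_nhdsWithin_of_eventually_nhds hall)).exists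
  refine ⟨_, a1, fun i => ⟨(a2 i).1, (a2 i).2.1, fun v hv => ?_⟩⟩
  have h3 : ∑ j, |(x i j + τ • w ⟨i, j⟩) v| ≤ ∑ j, |x i j v| + |τ| * ∑ j, ‖w ⟨i, j⟩‖ := by
    rw [Finset.mul_sum, ← Finset.sum_add_distrib]
    refine Finset.sum_le_sum fun j _ => (abs_add_le (x i j v) (τ * w ⟨i, j⟩ v)).trans ?_
    have h4 : |w ⟨i, j⟩ v| ≤ ‖w ⟨i, j⟩‖ :=
      ((w ⟨i, j⟩).le_opNorm v).trans (mul_le_of_le_one_right (norm_nonneg _) hv)
    rw [abs_mul]
    linarith [mul_le_mul_of_nonneg_left h4 (abs_nonneg τ)]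
  linarith [hx i v hv, (a2 i).2.2]

theorem final_ineq {ε δ a l n : ℝ} (hδ : 0 < δ) (h1 : δ ≤ 1) (hε : 5 * δ ≤ ε) (ha : 0 ≤ a)
    (hl : 0 ≤ l) (hn : 0 ≤ n) (h : a * (1 - 2 * δ - (1 + δ) * δ) + l * (1 - δ) ≤ (1 + δ) * n) :
    (1 - ε) * (a + l) ≤ n := by
  have h2 : a * (1 - 4 * δ) ≤ a * (1 - 2 * δ - (1 + δ) * δ) :=
    mul_le_mul_of_nonneg_left (by nlinarith) ha
  have h3 : l * (1 - 4 * δ) ≤ l * (1 - δ) := mul_le_mul_of_nonneg_left (by linarith) hl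
  have h4 : (1 + δ) * ((1 - ε) * (a + l)) ≤ (1 - 4 * δ) * (a + l) := by
    rw [← mul_assoc]
    exact mul_le_mul_of_nonneg_right (by nlinarith) (by linarith)
  exact le_of_mul_le_mul_left (a := 1 + δ) (by linarith) (by linarith)

theorem octahedral_of (hE : 2 ≤ Module.finrank ℝ E) {x₀ : E} {e : StrongDual ℝ E} (he : e x₀ = 1)
    (hn : ∀ (t : ℝ) (y : E), e y = 0 → ‖t • x₀ + y‖ = |t| + ‖y‖) : FBLOctahedral E := by
  intro Y hY hfin ε hε
  have hx0 : ‖x₀‖ = 1 := by simpa using hn 1 0 (map_zero e)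
  obtain ⟨δ, hδ, hδ1, hδε⟩ : ∃ δ : ℝ, 0 < δ ∧ δ ≤ 1 / 2 ∧ 5 * δ ≤ ε :=
    ⟨min (1 / 2) (ε / 5), by positivity, min_le_left _ _, by linarith [min_le_right (1 / 2) (ε / 5)]⟩
  obtain ⟨ι, _, _, g, hg, hnet⟩ := exists_net Y hY hδ
  choose m x hx h1 h2 using fun i => saturate he hn (g i) (sub_lt_self (nr (g i)) hδ)
  obtain ⟨x', hsep, hx'⟩ := separated hE g hg _ x hx h1 h2 hδ
  let s : (Σ i, Option (Fin (m i))) → ℝ := fun a => if 0 ≤ g a.1 (x' a) then 1 else -1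
  have hs : ∀ a, |s a| = 1 := fun a => by simp only [s]; split_ifs <;> simp
  have hs2 : ∀ a, s a * s a = 1 := fun a => by simp only [s]; split_ifs <;> simp
  have hsg : ∀ a, s a * g a.1 (x' a) = |g a.1 (x' a)| := fun a => by
    simp only [s]; split_ifs with h
    · rw [one_mul, abs_of_nonneg h]
    · rw [neg_one_mul, abs_of_neg (not_le.1 h)]
  haveI : Nonempty (Σ i, Option (Fin (m i))) := ⟨⟨Classical.arbitrary ι, none⟩⟩
  obtain ⟨u, hu, hu1, hu2⟩ := interpolate x' hsep x₀ s hs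
  have hP := PH.of_mem hu.mem_FBL
  have hn1 : nr u ≤ 1 := (nr_le fun m x hx =>
    (Finset.sum_le_sum fun j _ => hu1 (x j)).trans (hx x₀ hx0.le)).2
  have hn0 : 0 < nr u := by
    have i := Classical.arbitrary ι
    have h3 := hP.sum_le (fun j => x' ⟨i, j⟩) (by linarith) (hx' i).2.2
    simp only [hu2, abs_mul, hs, abs_abs, one_mul] at h3
    exact (mul_pos_iff_of_pos_left (a := 1 + δ) (by linarith)).1 (by linarith [(hx' i).2.1])
  have hy := hu.smul (nr u)⁻¹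
  have hPy := PH.of_mem hy.mem_FBL
  have hy1 : nr ((nr u)⁻¹ • u) = 1 := by
    rw [hP.nr_smul, abs_of_pos (inv_pos.2 hn0), inv_mul_cancel₀ hn0.ne']
  refine ⟨_, hy.mem_FBL, hy1, fun z hz l => ?_⟩
  change (1 - ε) * (nr z + |l|) ≤ nr (z + l • (nr u)⁻¹ • u)
  have hPz := PH.of_mem (hY hz)
  rcases (nr_nonneg z).eq_or_lt with h0 | h0
  · rw [← h0, hPz.eq_zero h0.symm, zero_add, zero_add, hPy.nr_smul, hy1, mul_one]
    linarith [mul_nonneg hε.le (abs_nonneg l)]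
  obtain ⟨σ, hσ, hσ2, hσl⟩ : ∃ σ : ℝ, |σ| = 1 ∧ σ * σ = 1 ∧ σ * l = |l| := by
    rcases abs_cases l with h | h
    · exact ⟨1, by simp, by simp, by simp [h.1]⟩
    · exact ⟨-1, by simp, by simp, by simp [h.1]⟩
  obtain ⟨i, hi⟩ := hnet ((σ * (nr z)⁻¹) • z) (Y.smul_mem _ hz) (by
    rw [hPz.nr_smul, abs_mul, hσ, one_mul, abs_of_pos (inv_pos.2 h0), inv_mul_cancel₀ h0.ne'])
  have hPg := PH.of_mem (hg i).mem_FBL
  have hPd : PH ((σ * (nr z)⁻¹) • z - g i) := by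
    simpa [sub_eq_add_neg] using ((hPz.smul_le (σ * (nr z)⁻¹)).1.add (hPg.smul_le (-1)).1).1
  have hg1 : 1 - δ ≤ nr (g i) := by
    have h3 := (hPd.add hPg).2
    rw [sub_add_cancel, hPz.nr_smul, abs_mul, hσ, one_mul, abs_of_pos (inv_pos.2 h0),
      inv_mul_cancel₀ h0.ne'] at h3
    linarith
  obtain ⟨b1, b2, b3⟩ := hx' i
  have c1 := (hPz.add (hPy.smul_le l).1).1.sum_le (fun j => x' ⟨i, j⟩) (by linarith) b3
  have c2 := (hPd.sum_le (fun j => x' ⟨i, j⟩) (by linarith) b3).trans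
    (mul_le_mul_of_nonneg_left hi (by linarith))
  have c3 : ∑ j, (nr z * (|g i (x' ⟨i, j⟩)| - |((σ * (nr z)⁻¹) • z - g i) (x' ⟨i, j⟩)|) +
      |l| * |x' ⟨i, j⟩ x₀|) ≤ ∑ j, |(z + l • (nr u)⁻¹ • u) (x' ⟨i, j⟩)| := by
    refine Finset.sum_le_sum fun j _ => ?_
    set a : Σ i, Option (Fin (m i)) := ⟨i, j⟩
    set d := ((σ * (nr z)⁻¹) • z - g i) (x' a) with hd
    have e1 : σ * z (x' a) = nr z * (g i (x' a) + d) := by
      simp only [hd, Pi.sub_apply, Pi.smul_apply, smul_eq_mul]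
      field_simp
      ring
    have e2 : s a * σ * (z + l • (nr u)⁻¹ • u) (x' a) =
        nr z * (|g i (x' a)| + s a * d) + |l| * ((nr u)⁻¹ * |x' a x₀|) := by
      have e0 : s a * g i (x' a) = |g i (x' a)| := hsg a
      simp only [Pi.add_apply, Pi.smul_apply, smul_eq_mul, hu2, ← hσl]
      linear_combination s a * e1 + σ * l * (nr u)⁻¹ * |x' a x₀| * hs2 a + nr z * e0
    have e3 := le_abs_self (s a * σ * (z + l • (nr u)⁻¹ • u) (x' a))
    rw [abs_mul, abs_mul, hs, hσ, one_mul, one_mul, e2] at e3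
    have e4 : -|d| ≤ s a * d := by
      have := neg_abs_le (s a * d)
      rwa [abs_mul, hs, one_mul] at this
    have e5 : |x' a x₀| ≤ (nr u)⁻¹ * |x' a x₀| :=
      le_mul_of_one_le_left (abs_nonneg _) ((one_le_inv₀ hn0).2 hn1)
    have e6 := mul_le_mul_of_nonneg_left e4 h0.le
    have e7 := mul_le_mul_of_nonneg_left e5 (abs_nonneg l)
    linarith
  rw [Finset.sum_add_distrib, ← Finset.mul_sum, ← Finset.mul_sum, Finset.sum_sub_distrib] at c3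
  refine final_ineq hδ (by linarith) hδε h0.le (abs_nonneg l) (nr_nonneg _)
    (le_trans (add_le_add ?_ ?_) (c3.trans c1))
  · exact mul_le_mul_of_nonneg_left (by linarith) h0.le
  · exact mul_le_mul_of_nonneg_left b2.le (abs_nonneg l)

theorem classification (hE : 2 ≤ Module.finrank ℝ E) : FBLOctahedral E ↔
    ∃ (x₀ : E) (H : Submodule ℝ E), (ℝ ∙ x₀) ⊔ H = ⊤ ∧
      ∀ (t : ℝ), ∀ y ∈ H, ‖t • x₀ + y‖ = |t| + ‖y‖ := by
  constructor
  · intro h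
    obtain ⟨x₀, h0⟩ := common_point h
    obtain ⟨e, he, hn⟩ := Contact.summand h0
    refine ⟨x₀, LinearMap.ker (e : E →ₗ[ℝ] ℝ), eq_top_iff.2 fun u _ => ?_, hn⟩
    exact Submodule.mem_sup.2 ⟨e u • x₀, Submodule.smul_mem _ _ (Submodule.mem_span_singleton_self _),
      u - e u • x₀, by simp [he], add_sub_cancel _ _⟩
  · rintro ⟨x₀, H, h1, h2⟩
    have hx : x₀ ∉ H := fun hx => by
      have h3 := h2 (-1) x₀ hx
      simp only [neg_smul, one_smul, neg_add_cancel, norm_zero, abs_neg, abs_one] at h3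
      linarith [norm_nonneg x₀]
    obtain ⟨f, hf, hf'⟩ := H.exists_dual_map_eq_bot_of_notMem hx inferInstance
    have hH : ∀ y ∈ H, f y = 0 := fun y hy =>
      (Submodule.mem_bot ℝ).1 (hf' ▸ Submodule.mem_map_of_mem hy)
    refine octahedral_of hE (x₀ := x₀) (e := LinearMap.toContinuousLinearMap ((f x₀)⁻¹ • f))
      (by simp [hf]) fun t y hy => h2 t y ?_
    obtain ⟨_, ha, b, hb, rfl⟩ := Submodule.mem_sup.1 (h1 ▸ Submodule.mem_top : y ∈ (ℝ ∙ x₀) ⊔ H)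
    obtain ⟨c, rfl⟩ := Submodule.mem_span_singleton.1 ha
    have hc : c = 0 := by simpa [hf, hH b hb] using hy
    simpa [hc] using hb

end Pool.Agent.P.MP_8a6196_an
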