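import Mathlib

/-! Definitions for the free Banach lattice over a real normed space `E`. -/

namespace Pool.Agent.P.MP_8a6196_an

open scoped ENNReal

variable (E : Type) [NormedAddCommGroup E] [NormedSpace ℝ E]

/-- The free Banach lattice norm of `f : E* → ℝ`, with values in `[0, ∞]`: the supremum of
`∑ |f (x i)|` over finite families `x i` in `E*` with `∑ |x i v| ≤ 1` for all `v` in the
unit ball of `E`. -/
noncomputable def fblNorm (f : StrongDual ℝ E → ℝ) : ℝ≥0∞ :=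
  ⨆ (m : ℕ) (x : Fin m → StrongDual ℝ E) (_ : ∀ v : E, ‖v‖ ≤ 1 → ∑ i, |x i v| ≤ 1),
    ENNReal.ofReal (∑ i, |f (x i)|)

/-- The vector sublattice (pointwise operations) generated by the evaluations
`δ_v : φ ↦ φ v`. -/
inductive LatGen : (StrongDual ℝ E → ℝ) → Prop
  | delta (v : E) : LatGen (fun φ => φ v)
  | add {f g : StrongDual ℝ E → ℝ} : LatGen f → LatGen g → LatGen (f + g)
  | smul (c : ℝ) {f : StrongDual ℝ E → ℝ} : LatGen f → LatGen (c • f)
  | sup {f g : StrongDual ℝ E → ℝ} : LatGen f → LatGen g → LatGen (f ⊔ g)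
  | inf {f g : StrongDual ℝ E → ℝ} : LatGen f → LatGen g → LatGen (f ⊓ g)

/-- `FBL[E]`: the positively homogeneous functions of finite norm lying in the norm closure
of the vector sublattice generated by the evaluations. -/
def FBL : Set (StrongDual ℝ E → ℝ) :=
  {f | (∀ t : ℝ, 0 ≤ t → ∀ φ, f (t • φ) = t * f φ) ∧ fblNorm E f < ⊤ ∧
    ∀ ε : ℝ, 0 < ε → ∃ g, LatGen E g ∧ fblNorm E (f - g) < ENNReal.ofReal ε}

/-- The norm of `FBL[E]` is octahedral: for every finite-dimensional subspace `Y` of `FBL[E]`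
and `ε > 0` there is `y` in the unit sphere of `FBL[E]` with
`‖z + l y‖ ≥ (1 - ε) (‖z‖ + |l|)` for all `z ∈ Y` and real `l`. -/
def FBLOctahedral : Prop :=
  ∀ Y : Submodule ℝ (StrongDual ℝ E → ℝ), (Y : Set (StrongDual ℝ E → ℝ)) ⊆ FBL E →
    FiniteDimensional ℝ Y → ∀ ε : ℝ, 0 < ε →
      ∃ y ∈ FBL E, (fblNorm E y).toReal = 1 ∧ ∀ z ∈ Y, ∀ l : ℝ,
        (1 - ε) * ((fblNorm E z).toReal + |l|) ≤ (fblNorm E (z + l • y)).toReal

end Pool.Agent.P.MP_8a6196_an
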