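import Pool.Agent.P.MP_8a6196_an.Basic

namespace Pool.Agent.P.MP_8a6196_an

open scoped ENNReal

variable {n : ℕ}

/-- the test function `(|δ_{e_i}| - ∑_{l ≠ i} |δ_{e_l}|)⁺` -/
noncomputable def testFn (i : Fin n) (φ : StrongDual ℝ (EuclideanSpace ℝ (Fin n))) : ℝ :=
  max (|φ (EuclideanSpace.single i 1)| -
    ∑ l ∈ Finset.univ.erase i, |φ (EuclideanSpace.single l 1)|) 0

theorem testFn_latGen (i : Fin n) : LatGen (EuclideanSpace ℝ (Fin n)) (testFn i) := by
  have h1 := (LatGen.delta (EuclideanSpace.single i (1 : ℝ))).abs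
  have h2 := LatGen.sum (Finset.univ.erase i)
    (fun l (φ : StrongDual ℝ (EuclideanSpace ℝ (Fin n))) => |φ (EuclideanSpace.single l 1)|)
    (fun l => (LatGen.delta (EuclideanSpace.single l (1 : ℝ))).abs)
  have h3 := LatGen.sup (LatGen.add h1 (LatGen.smul (-1) h2)) LatGen.zero
  convert h3 using 1
  ext φ
  simp [testFn, sub_eq_add_neg]

theorem testFn_nonneg (i : Fin n) (φ) : 0 ≤ testFn i φ := le_max_right _ _

theorem testFn_le (i : Fin n) (φ) : testFn i φ ≤ |φ (EuclideanSpace.single i 1)| := by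
  unfold testFn
  refine max_le ?_ (abs_nonneg _)
  have : 0 ≤ ∑ l ∈ Finset.univ.erase i, |φ (EuclideanSpace.single l 1)| :=
    Finset.sum_nonneg fun _ _ => abs_nonneg _
  linarith

theorem abs_coord_le (v : EuclideanSpace ℝ (Fin n)) (i : Fin n) : |v i| ≤ ‖v‖ := by
  simpa using PiLp.norm_apply_le v i

theorem one_le_norm_testFn (i : Fin n) : 1 ≤ fblNorm (EuclideanSpace ℝ (Fin n)) (testFn i) := by
  have h := le_fblNorm (ι := Unit) (testFn i) (fun _ => EuclideanSpace.proj i) (by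
    intro v hv
    simpa using (abs_coord_le v i).trans hv)
  have h2 : testFn i (EuclideanSpace.proj i) = 1 := by
    unfold testFn
    have : ∑ l ∈ Finset.univ.erase i,
        |(EuclideanSpace.proj i : StrongDual ℝ (EuclideanSpace ℝ (Fin n)))
          (EuclideanSpace.single l 1)| = 0 := by
      refine Finset.sum_eq_zero fun l hl => ?_
      have : i ≠ l := (Finset.ne_of_mem_erase hl).symm
      simp [this]
    rw [this]
    simp
  simpa [h2] using h

theorem apply_eq_sum (φ : StrongDual ℝ (EuclideanSpace ℝ (Fin n))) (u : EuclideanSpace ℝ (Fin n)) :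
    φ u = ∑ l, u l * φ (EuclideanSpace.single l 1) := by
  have h := (EuclideanSpace.basisFun (Fin n) ℝ).sum_repr u
  conv_lhs => rw [← h]
  simp [map_sum]

theorem abs_apply_le (i : Fin n) (φ : StrongDual ℝ (EuclideanSpace ℝ (Fin n)))
    (u : EuclideanSpace ℝ (Fin n)) (hu : u i = 0) (hn : ‖u‖ ≤ 1) :
    |φ u| ≤ ∑ l ∈ Finset.univ.erase i, |φ (EuclideanSpace.single l 1)| := by
  rw [apply_eq_sum, ← Finset.add_sum_erase _ _ (Finset.mem_univ i), hu, zero_mul, zero_add]
  refine (Finset.abs_sum_le_sum_abs _ _).trans (Finset.sum_le_sum fun l _ => ?_)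
  rw [abs_mul]
  exact mul_le_of_le_one_left (abs_nonneg _) ((abs_coord_le u l).trans hn)

theorem pointwise_ineq (s w b : ℝ) (hb : |w| ≤ b) :
    5 / 12 * |w| + 2 * max (|s| - b) 0 - |s| ≤ |s + 5 / 12 * w| := by
  have h1 : |s| - 5 / 12 * |w| ≤ |s + 5 / 12 * w| := by
    have := abs_sub_abs_le_abs_add s (5 / 12 * w)
    rwa [abs_mul, abs_of_pos (by norm_num : (0 : ℝ) < 5 / 12)] at this
  have h2 : 5 / 12 * |w| - |s| ≤ |s + 5 / 12 * w| := by
    have := abs_sub_abs_le_abs_add (5 / 12 * w) s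
    rwa [abs_mul, abs_of_pos (by norm_num : (0 : ℝ) < 5 / 12), add_comm] at this
  rcases le_total (|s| - b) 0 with h | h
  · rw [max_eq_right h]; linarith
  · rw [max_eq_left h]; linarith [abs_nonneg w]

theorem norm_sq_split (i : Fin n) (a : ℝ) (u : EuclideanSpace ℝ (Fin n)) (hu : u i = 0) :
    ‖EuclideanSpace.single i a + u‖ ^ 2 = a ^ 2 + ‖u‖ ^ 2 := by
  rw [norm_add_sq_real, EuclideanSpace.inner_single_left]
  simp [hu]

/-- a family that almost norms the test function is small in the directions orthogonal to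
`e_i` -/
theorem orth_small {m : ℕ} (i : Fin n) (x : Fin m → StrongDual ℝ (EuclideanSpace ℝ (Fin n)))
    (hx : ∀ v : EuclideanSpace ℝ (Fin n), ‖v‖ ≤ 1 → ∑ j, |x j v| ≤ 1)
    (hf : 99 / 100 ≤ ∑ j, testFn i (x j))
    (u : EuclideanSpace ℝ (Fin n)) (hu : u i = 0) (hn : ‖u‖ ≤ 1) :
    ∑ j, |x j u| ≤ 1 / 4 := by
  have he : ∑ j, |x j (EuclideanSpace.single i 1)| ≤ 1 := hx _ (by simp)
  have hw : ‖EuclideanSpace.single i (1 : ℝ) + (5 / 12 : ℝ) • u‖ ≤ 13 / 12 := by
    have h1 := norm_sq_split i 1 ((5 / 12 : ℝ) • u) (by simp [hu])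
    rw [norm_smul] at h1
    have h2 : ‖(5 / 12 : ℝ)‖ = 5 / 12 := by norm_num
    rw [h2] at h1
    have h3 := norm_nonneg u
    refine (sq_le_sq₀ (norm_nonneg _) (by norm_num)).mp ?_
    nlinarith
  have h1 := sum_le_norm x hx (EuclideanSpace.single i (1 : ℝ) + (5 / 12 : ℝ) • u)
  have h2 : ∑ j, (5 / 12 * |x j u| + 2 * testFn i (x j) - |x j (EuclideanSpace.single i 1)|) ≤
      ∑ j, |x j (EuclideanSpace.single i (1 : ℝ) + (5 / 12 : ℝ) • u)| := by
    refine Finset.sum_le_sum fun j _ => ?_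
    rw [map_add, map_smul, smul_eq_mul]
    exact pointwise_ineq _ _ _ (abs_apply_le i (x j) u hu hn)
  rw [Finset.sum_sub_distrib, Finset.sum_add_distrib, ← Finset.mul_sum, ← Finset.mul_sum] at h2
  linarith

theorem profile_le {m : ℕ} (i : Fin n) (x : Fin m → StrongDual ℝ (EuclideanSpace ℝ (Fin n)))
    (hx : ∀ v : EuclideanSpace ℝ (Fin n), ‖v‖ ≤ 1 → ∑ j, |x j v| ≤ 1)
    (hf : 99 / 100 ≤ ∑ j, testFn i (x j))
    (v : EuclideanSpace ℝ (Fin n)) (hv : ‖v‖ ≤ 1) :
    ∑ j, |x j v| ≤ |v i| + 1 / 4 := by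
  set u : EuclideanSpace ℝ (Fin n) := v - EuclideanSpace.single i (v i) with hu
  have hui : u i = 0 := by simp [hu]
  have hvu : v = EuclideanSpace.single i (v i) + u := by simp [hu]
  have hn : ‖u‖ ≤ 1 := by
    have h1 := norm_sq_split i (v i) u hui
    rw [← hvu] at h1
    have h3 := norm_nonneg v
    refine (sq_le_sq₀ (norm_nonneg _) (by norm_num)).mp ?_
    nlinarith [sq_nonneg (v i)]
  have h1 := orth_small i x hx hf u hui hn
  have h2 := sum_le_norm x hx (EuclideanSpace.single i (v i))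
  have h3 : ‖EuclideanSpace.single i (v i)‖ = |v i| := by simp
  rw [h3] at h2
  calc ∑ j, |x j v| ≤ ∑ j, (|x j (EuclideanSpace.single i (v i))| + |x j u|) := by
        refine Finset.sum_le_sum fun j _ => ?_
        conv_lhs => rw [hvu, map_add]
        exact abs_add_le _ _
    _ = ∑ j, |x j (EuclideanSpace.single i (v i))| + ∑ j, |x j u| := Finset.sum_add_distrib
    _ ≤ |v i| + 1 / 4 := by linarith

theorem two_coords (i k : Fin n) (hik : i ≠ k) (v : EuclideanSpace ℝ (Fin n)) (hv : ‖v‖ ≤ 1) :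
    |v i| ≤ 71 / 100 ∨ |v k| ≤ 71 / 100 := by
  have h1 : ‖v‖ ^ 2 = ∑ l, v l ^ 2 := EuclideanSpace.real_norm_sq_eq v
  have h2 : ∑ l ∈ ({i, k} : Finset (Fin n)), v l ^ 2 ≤ ∑ l, v l ^ 2 :=
    Finset.sum_le_sum_of_subset_of_nonneg (Finset.subset_univ _) fun _ _ _ => sq_nonneg _
  rw [Finset.sum_pair hik] at h2
  have h3 := norm_nonneg v
  by_contra hc
  push Not at hc
  have h4 := sq_abs (v i)
  have h5 := sq_abs (v k)
  nlinarith [hc.1, hc.2]

theorem not_octahedral (hn : 2 ≤ n) : ¬ FBLOctahedral (EuclideanSpace ℝ (Fin n)) := by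
  intro hoct
  let i : Fin n := ⟨0, by omega⟩
  let k : Fin n := ⟨1, by omega⟩
  have hik : i ≠ k := by simp [i, k]
  let Y : Submodule ℝ (StrongDual ℝ (EuclideanSpace ℝ (Fin n)) → ℝ) :=
    Submodule.span ℝ {testFn i, testFn k}
  have hY : (Y : Set _) ⊆ FBL (EuclideanSpace ℝ (Fin n)) := by
    intro z hz
    obtain ⟨a, b, rfl⟩ := Submodule.mem_span_pair.mp hz
    exact (LatGen.add (LatGen.smul a (testFn_latGen i)) (LatGen.smul b (testFn_latGen k))).mem_FBL
  have hfin : FiniteDimensional ℝ Y :=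
    FiniteDimensional.span_of_finite ℝ (Set.toFinite _)
  obtain ⟨y, hy, hy1, hmain⟩ := hoct Y hY hfin (1 / 300) (by norm_num)
  have hy1' : fblNorm _ y ≤ 1 := by
    rw [← ENNReal.ofReal_toReal hy.2.1.ne, hy1]; simp
  have key : ∀ l : Fin n, testFn l ∈ Y → ∃ (m : ℕ)
      (x : Fin m → StrongDual ℝ (EuclideanSpace ℝ (Fin n))),
      (∀ v : EuclideanSpace ℝ (Fin n), ‖v‖ ≤ 1 → ∑ j, |x j v| ≤ 1) ∧
      99 / 100 ≤ ∑ j, testFn l (x j) ∧ 99 / 100 ≤ ∑ j, |y (x j)| := by
    intro l hl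
    have h1 := hmain _ hl 1
    have h2 : 1 ≤ (fblNorm _ (testFn l)).toReal := by
      have := ENNReal.toReal_mono (hY hl).2.1.ne (one_le_norm_testFn l)
      simpa using this
    have h3 : (299 / 150 : ℝ) ≤ (fblNorm _ (testFn l + (1 : ℝ) • y)).toReal := by
      refine le_trans ?_ h1
      rw [abs_one]
      nlinarith
    have h4 : ENNReal.ofReal (199 / 100) < fblNorm _ (testFn l + (1 : ℝ) • y) := by
      refine lt_of_lt_of_le ?_ (ENNReal.ofReal_le_of_le_toReal h3)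
      rw [ENNReal.ofReal_lt_ofReal_iff (by norm_num)]
      norm_num
    obtain ⟨m, x, hx, hs⟩ := exists_of_lt_fblNorm _ _ h4
    have h5 : ∑ j, |(testFn l + (1 : ℝ) • y) (x j)| ≤ ∑ j, testFn l (x j) + ∑ j, |y (x j)| := by
      rw [← Finset.sum_add_distrib]
      refine Finset.sum_le_sum fun j _ => ?_
      simp only [one_smul, Pi.add_apply]
      refine (abs_add_le _ _).trans ?_
      rw [abs_of_nonneg (testFn_nonneg _ _)]
    have h6 : ∑ j, |y (x j)| ≤ 1 := sum_le_of_norm_le_one hy.1 hy1' x one_pos hx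
    have h7 : ∑ j, testFn l (x j) ≤ 1 :=
      (Finset.sum_le_sum fun j _ => testFn_le l (x j)).trans (hx _ (by simp))
    exact ⟨m, x, hx, by linarith, by linarith⟩
  obtain ⟨m₁, x₁, hx₁, hf₁, hy₁⟩ := key i (Submodule.subset_span (by simp))
  obtain ⟨m₂, x₂, hx₂, hf₂, hy₂⟩ := key k (Submodule.subset_span (by simp))
  have h := sum_le_of_norm_le_one hy.1 hy1' (Sum.elim x₁ x₂) (C := 196 / 100) (by norm_num) (by
    intro v hv
    rw [Fintype.sum_sum_type]
    simp only [Sum.elim_inl, Sum.elim_inr]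
    have a1 := hx₁ v hv
    have a2 := hx₂ v hv
    have b1 := profile_le i x₁ hx₁ hf₁ v hv
    have b2 := profile_le k x₂ hx₂ hf₂ v hv
    rcases two_coords i k hik v hv with h | h <;> linarith)
  rw [Fintype.sum_sum_type] at h
  simp only [Sum.elim_inl, Sum.elim_inr] at h
  linarith

end Pool.Agent.P.MP_8a6196_an
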