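import Pool.Agent.P.MP_8a6196_an.Euclid

/-- For every `n ≥ 2`, the norm of the free Banach lattice over the Euclidean space `ℝⁿ`
is not octahedral. -/
theorem Pool.Agent.P.MP_8a6196_an.euclid_not_octahedral (n : ℕ) (hn : 2 ≤ n) :
    ¬ Pool.Agent.P.MP_8a6196_an.FBLOctahedral (EuclideanSpace ℝ (Fin n)) :=
  Pool.Agent.P.MP_8a6196_an.not_octahedral hn
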